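import Pool.Agent.H40.TB.Main

/-!
# Logarithmic Kodaira dimension and `A¹`-uniruledness: quasi-affine varieties and orbifolds

The definitions are in `Pool/Agent/H40/TB/Defs.lean` (`QVar`: quasi-projective varieties, `Orb`:
orbifolds, `Conj` and `OrbConj`: the conjecture for them) and `Pool/Agent/H40/TB/Bundle.lean`
(`Orb.bundle`: the torus bundle of an orbifold).

* For every orbifold `O = (V; D i, mult i)` with `r` divisors, the torus bundle `Y(O)` of dimension
  `dim V + r + 1` is quasi-affine, smooth if `V` and the `D i` are smooth and cross normally, has the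
  same log plurigenera as `O`, and is `A¹`-uniruled if and only if there is an orbifold curve
  `A¹ → V` through the general point of `V`.
* So the conjecture for smooth quasi-projective varieties is equivalent to the conjecture for smooth
  quasi-affine varieties, and to the orbifold version of the conjecture; similarly for all
  varieties.
-/

set_option autoImplicit false

open Pool.Agent.H40.TB Pool.Agent.TH122.AB

namespace Pool.Agent.Results.MP_410da7_ag.QuasiAffineAndOrbifold

theorem result :
    -- the torus bundle of an orbifold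
    (∀ (F : Type) [Field F] [Algebra ℂ F] (O : Orb F) (K : Type) [Field K] [Algebra ℂ K]
      [Algebra F K] [IsScalarTower ℂ F K] (t : Fin (O.r + 1) → K) (h : Gens (k := F) t),
      (O.bundle t h).QuasiAffine ∧ (O.SNC → (O.bundle t h).Smooth) ∧
      (O.bundle t h).dim = O.dim + (O.r + 1) ∧
      ((O.bundle t h).A1 ↔ O.OrbA1) ∧
      (NoSec (O.bundle t h).dim (O.bundle t h).bd ↔ NoSec O.dim O.δ) ∧
      (∀ n, KodQ (O.bundle t h).dim (O.bundle t h).bd n ↔ KodQ O.dim O.δ n) ∧
      ∀ m n, PluriGe (O.bundle t h).dim m (O.bundle t h).bd n ↔ PluriGe O.dim m O.δ n) ∧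
    -- the conjecture for smooth varieties of dimension `n`
    (∀ n : ℕ, (∀ (K : Type) [Field K] [Algebra ℂ K] (W : QVar K), W.Smooth → W.QuasiAffine →
        W.dim = n + 1 → W.Conj) →
      ∀ (F : Type) [Field F] [Algebra ℂ F] (V : QVar F), V.Smooth → V.dim = n → V.Conj) ∧
    -- the conjecture for smooth varieties
    [∀ (F : Type) [Field F] [Algebra ℂ F] (V : QVar F), V.Smooth → V.Conj,
      ∀ (F : Type) [Field F] [Algebra ℂ F] (V : QVar F), V.Smooth → V.QuasiAffine → V.Conj,
      ∀ (F : Type) [Field F] [Algebra ℂ F] (O : Orb F), O.SNC → O.OrbConj].TFAE ∧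
    -- the conjecture for all varieties
    [∀ (F : Type) [Field F] [Algebra ℂ F] (V : QVar F), V.Conj,
      ∀ (F : Type) [Field F] [Algebra ℂ F] (V : QVar F), V.QuasiAffine → V.Conj,
      ∀ (F : Type) [Field F] [Algebra ℂ F] (O : Orb F), O.OrbConj].TFAE := by
  refine ⟨fun F _ _ O K _ _ _ _ t h => ⟨O.bundle_quasiAffine t h, O.bundle_smooth h,
    O.dim_bundle h, O.a1_iff h, (O.noSec_iff h).symm, fun n => (O.kodQ_iff h n).symm,
    fun m n => (O.pluri_iff h m n).symm⟩, ?_, ?_, ?_⟩
  · intro n hW F _ _ V hV hdim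
    rw [← V.toOrb_conj, ← V.toOrb.conj_iff (gens_vars F _)]
    exact hW _ _ (V.toOrb.bundle_smooth _ (V.toOrb_snc hV)) (V.toOrb.bundle_quasiAffine _ _)
      (by rw [V.toOrb.dim_bundle, ← hdim]; rfl)
  · tfae_have 1 → 2 := fun h F _ _ V hV _ => h F V hV
    tfae_have 2 → 3 := by
      intro h F _ _ O hO
      rw [← O.conj_iff (gens_vars F _)]
      exact h _ _ (O.bundle_smooth _ hO) (O.bundle_quasiAffine _ _)
    tfae_have 3 → 1 := by
      intro h F _ _ V hV
      rw [← V.toOrb_conj]
      exact h F _ (V.toOrb_snc hV)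
    tfae_finish
  · tfae_have 1 → 2 := fun h F _ _ V _ => h F V
    tfae_have 2 → 3 := by
      intro h F _ _ O
      rw [← O.conj_iff (gens_vars F _)]
      exact h _ _ (O.bundle_quasiAffine _ _)
    tfae_have 3 → 1 := by
      intro h F _ _ V
      rw [← V.toOrb_conj]
      exact h F _
    tfae_finish

end Pool.Agent.Results.MP_410da7_ag.QuasiAffineAndOrbifold
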